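import Pool.Agent.Helper71.BM.Basic

/-!
# Module LAD: a ladder inside a web
-/

set_option autoImplicit false

namespace Pool.Agent.Helper71.BM

open Finset ErdPos

section

variable {V : Type} {G : SimpleGraph V}

/-- a piece between the rows `a` and `b` in the column `i` -/
def ladT (G : SimpleGraph V) (h d : ℕ) (R : ℕ → ℕ → List V) (U : ℕ → Finset V) (i a b : ℕ) :
    Prop :=
  ∃ x ∈ R a i, ∃ y ∈ R b i, ∃ l, PL G x y (x :: l ++ [y]) ∧ (∀ v ∈ l, v ∈ U i) ∧
    ∀ v ∈ l, ∀ c < h, v ∉ row R d c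

lemma ladT_symm {h d : ℕ} {R : ℕ → ℕ → List V} {U : ℕ → Finset V} {i a b : ℕ}
    (hT : ladT G h d R U i a b) : ladT G h d R U i b a := by
  obtain ⟨x, hx, y, hy, l, hl, h1, h2⟩ := hT
  refine ⟨y, hy, x, hx, l.reverse, ?_, ?_, ?_⟩
  · have h3 := hl.reverse
    have h4 : (x :: l ++ [y]).reverse = y :: l.reverse ++ [x] := by simp
    rw [h4] at h3
    exact h3
  · intro v hv
    exact h1 v (List.mem_reverse.1 hv)
  · intro v hv
    exact h2 v (List.mem_reverse.1 hv)

lemma lad_mem_row {R : ℕ → ℕ → List V} {d a i : ℕ} (hi : i < d) {v : V} (hv : v ∈ R a i) :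
    v ∈ row R d a := by
  unfold row
  rw [List.mem_flatten]
  exact ⟨R a i, List.mem_map.2 ⟨i, List.mem_range.2 hi, rfl⟩, hv⟩

lemma lad_range (m n : ℕ) (h : m ≤ n) : List.range n = List.range m ++ List.Ico m n := by
  rw [← List.Ico.zero_bot, ← List.Ico.zero_bot, List.Ico.append_consecutive (Nat.zero_le _) h]

/-- consecutive segments of a row are adjacent -/
lemma lad_adj {R : ℕ → ℕ → List V} {d a i : ℕ} (hi : i + 1 < d)
    (hne : ∀ j < d, R a j ≠ []) (hch : (row R d a).IsChain G.Adj) :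
    ∃ x ∈ R a i, ∃ y ∈ R a (i + 1), G.Adj x y := by
  have h1 : row R d a = ((List.range i).map (R a)).flatten ++
      (R a i ++ (R a (i + 1) ++ ((List.Ico (i + 2) d).map (R a)).flatten)) := by
    unfold row
    rw [lad_range i d (by omega), List.Ico.eq_cons (by omega : i < d),
      List.Ico.eq_cons (by omega : i + 1 < d)]
    simp
  rw [h1] at hch
  have h2 := hch.right_of_append
  rw [← List.append_assoc] at h2
  have h3 := h2.left_of_append
  rw [List.isChain_append] at h3
  obtain ⟨-, -, h4⟩ := h3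
  obtain ⟨x, hx⟩ : ∃ x, (R a i).getLast? = some x := by
    cases hc : (R a i).getLast? with
    | none => exact absurd (List.getLast?_eq_none_iff.1 hc) (hne i (by omega))
    | some x => exact ⟨x, rfl⟩
  obtain ⟨y, hy⟩ : ∃ y, (R a (i + 1)).head? = some y := by
    cases hc : (R a (i + 1)).head? with
    | none => exact absurd (List.head?_eq_none_iff.1 hc) (hne (i + 1) hi)
    | some y => exact ⟨y, rfl⟩
  exact ⟨x, List.mem_of_getLast? hx, y, List.mem_of_head? hy, h4 x hx y hy⟩

/-- the union of consecutive regions is connected -/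
lemma lad_conn [DecidableEq V] {h d : ℕ} {R : ℕ → ℕ → List V} {U : ℕ → Finset V}
    (hW : Web G h d R U) (hh : 0 < h) (m n : ℕ) (hmn : m < n) (hn : n ≤ d) :
    Conn G ((Finset.Ico m n).biUnion U) := by
  induction n with
  | zero => omega
  | succ n ih =>
    rcases Nat.lt_or_ge m n with h1 | h1
    · have h2 := ih h1 (by omega)
      have h3 : (Finset.Ico m (n + 1)).biUnion U = (Finset.Ico m n).biUnion U ∪ U n := by
        ext v
        simp only [mem_biUnion, mem_union, Finset.mem_Ico]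
        constructor
        · rintro ⟨i, hi, hv⟩
          rcases Nat.lt_or_ge i n with h4 | h4
          · exact Or.inl ⟨i, ⟨hi.1, h4⟩, hv⟩
          · have : i = n := by omega
            subst this
            exact Or.inr hv
        · rintro (⟨i, hi, hv⟩ | hv)
          · exact ⟨i, ⟨hi.1, by omega⟩, hv⟩
          · exact ⟨n, ⟨by omega, by omega⟩, hv⟩
      rw [h3]
      apply h2.union (hW.conn n (by omega))
      left
      obtain ⟨x, hx, y, hy, hxy⟩ := lad_adj (i := n - 1) (by omega : n - 1 + 1 < d)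
        (hW.ne 0 hh) (hW.chain 0 hh)
      have hn1 : n - 1 + 1 = n := by omega
      rw [hn1] at hy
      refine ⟨x, ?_, y, hW.mem 0 hh n (by omega) y hy, hxy⟩
      rw [mem_biUnion]
      exact ⟨n - 1, Finset.mem_Ico.2 ⟨by omega, by omega⟩, hW.mem 0 hh (n - 1) (by omega) x hx⟩
    · have : m = n := by omega
      subst this
      have h3 : (Finset.Ico m (m + 1)).biUnion U = U m := by
        rw [Nat.Ico_succ_singleton, singleton_biUnion]
      rw [h3]
      exact hW.conn m (by omega)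

/-- the rows of the regrouped web -/
lemma lad_row {R : ℕ → ℕ → List V} (b : ℕ → ℕ) (f : ℕ → ℕ) (d' : ℕ) (hb0 : b 0 = 0)
    (hb : ∀ j < d', b j < b (j + 1)) (a : ℕ) (m : ℕ) (hm : m ≤ d') :
    row (fun a j => ((List.Ico (b j) (b (j + 1))).map (R (f a))).flatten) m a =
      row R (b m) (f a) := by
  induction m with
  | zero =>
    unfold row
    rw [hb0]
    simp
  | succ m ih =>
    have h1 := ih (by omega)
    unfold row at h1 ⊢
    rw [List.range_succ, List.map_append, List.flatten_append, h1,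
      lad_range (b m) (b (m + 1)) (hb m (by omega)).le]
    simp

/-- the data of a ladder pattern in a column -/
def ladGood (G : SimpleGraph V) (r h d : ℕ) (R : ℕ → ℕ → List V) (U : ℕ → Finset V) (i : ℕ)
    (π : Bool × (Fin r → Fin h) × Fin h) : Prop :=
  Function.Injective π.2.1 ∧
    ((π.1 = true ∧ ∀ s t : Fin r, (s : ℕ) + 1 = t → ladT G h d R U i (π.2.1 s) (π.2.1 t)) ∨
      (π.1 = false ∧ (∀ s : Fin r, π.2.1 s ≠ π.2.2) ∧
        ∀ s : Fin r, ladT G h d R U i π.2.2 (π.2.1 s)))

/-- a path between consecutive rows of the pattern -/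
lemma lad_link [DecidableEq V] {r h d : ℕ} {R : ℕ → ℕ → List V} {U : ℕ → Finset V}
    (hW : Web G h d R U) {i : ℕ} (hi : i < d) {π : Bool × (Fin r → Fin h) × Fin h}
    (hπ : ladGood G r h d R U i π) (s t : Fin r) (hst : (s : ℕ) + 1 = t) :
    ∃ x ∈ R (π.2.1 s) i, ∃ y ∈ R (π.2.1 t) i, ∃ l, PL G x y (x :: l ++ [y]) ∧
      (∀ v ∈ l, v ∈ U i) ∧ ∀ v ∈ l, ∀ a : Fin r, v ∉ row R d (π.2.1 a) := by
  obtain ⟨hinj, hπ | hπ⟩ := hπ
  · obtain ⟨x, hx, y, hy, l, hl, h1, h2⟩ := hπ.2 s t hst
    exact ⟨x, hx, y, hy, l, hl, h1, fun v hv a => h2 v hv _ (π.2.1 a).2⟩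
  · obtain ⟨-, hc, hT⟩ := hπ
    obtain ⟨x, hx, y, hy, l, hl, h1, h2⟩ := ladT_symm (hT s)
    obtain ⟨x', hx', y', hy', l', hl', h1', h2'⟩ := hT t
    set c := π.2.2 with hcdef
    have hch : (R c i).IsChain G.Adj := by
      have h3 := hW.chain c c.2
      have h4 : row R d c = ((List.range i).map (R c)).flatten ++
          (R c i ++ ((List.Ico (i + 1) d).map (R c)).flatten) := by
        unfold row
        rw [lad_range i d (by omega), List.Ico.eq_cons (by omega : i < d)]
        simp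
      rw [h4] at h3
      exact h3.right_of_append.left_of_append
    have hC := conn_of_chain (hW.ne c c.2 i hi) hch
    have hZ1 : Conn G ((x :: l ++ [y]).toFinset ∪ (R c i).toFinset) := by
      apply hl.conn.union hC
      right
      exact ⟨y, mem_inter.2 ⟨by simp, by simpa using hy⟩⟩
    have hZ2 : Conn G (((x :: l ++ [y]).toFinset ∪ (R c i).toFinset) ∪
        (x' :: l' ++ [y']).toFinset) := by
      apply hZ1.union hl'.conn
      right
      exact ⟨x', mem_inter.2 ⟨mem_union_right _ (by simpa using hx'), by simp⟩⟩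
    have hst' : (π.2.1 s : ℕ) ≠ π.2.1 t := by
      intro h3
      have h4 := hinj (Fin.ext h3)
      rw [h4] at hst
      omega
    have hxy : x ≠ y' := by
      rintro rfl
      exact hW.dj _ (π.2.1 s).2 _ (π.2.1 t).2 hst' (lad_mem_row hi hx) (lad_mem_row hi hy')
    obtain ⟨m, hm, hmZ⟩ := exists_PL_mid hZ2 (a := x) (b := y')
      (mem_union_left _ (mem_union_left _ (by simp))) (mem_union_right _ (by simp)) hxy
    have key : ∀ v ∈ m, (v ∈ l ∨ v ∈ R c i) ∨ v ∈ l' := by
      intro v hv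
      obtain ⟨g1, g2, g3⟩ := hmZ v hv
      simp only [mem_union, List.mem_toFinset, List.mem_cons, List.mem_append,
        List.not_mem_nil, or_false, List.cons_append] at g1
      rcases g1 with ((g | g | g) | g) | (g | g | g)
      · exact absurd g g2
      · exact Or.inl (Or.inl g)
      · exact Or.inl (Or.inr (g ▸ hy))
      · exact Or.inl (Or.inr g)
      · exact Or.inl (Or.inr (g ▸ hx'))
      · exact Or.inr g
      · exact absurd g g3
    refine ⟨x, hx, y', hy', m, hm, ?_, ?_⟩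
    · intro v hv
      rcases key v hv with (g | g) | g
      · exact h1 v g
      · exact hW.mem c c.2 i hi v g
      · exact h1' v g
    · intro v hv a hva
      rcases key v hv with (g | g) | g
      · exact h2 v g _ (π.2.1 a).2 hva
      · have h5 : (c : ℕ) ≠ π.2.1 a := fun h6 => hc a (Fin.ext h6.symm)
        exact hW.dj _ c.2 _ (π.2.1 a).2 h5 (lad_mem_row hi g) hva
      · exact h2' v g _ (π.2.1 a).2 hva

end

theorem st_LAD (h1 : ST_PST) (h2 : ST_PIEC) : ST_LAD := by
  classical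
  intro r d' hr hd'
  obtain ⟨h, hPST⟩ := h1 r
  have hh : 0 < h := by
    have hall : ∀ I : Finset ℕ, I.Nonempty → I ⊆ range h → I ≠ range h →
        ∃ a ∈ I, ∃ b ∈ range h, b ∉ I ∧ (fun _ _ => True : ℕ → ℕ → Prop) a b := by
      intro I hI hsub hne
      obtain ⟨a, ha⟩ := hI
      by_contra hcon
      push Not at hcon
      apply hne
      apply subset_antisymm hsub
      intro b hb
      by_contra hbI
      exact hcon a ha b hb hbI
    rcases hPST (fun _ _ => True) (fun _ _ _ => trivial) hall with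
      ⟨f, hf, -⟩ | ⟨c, hc, -⟩
    · exact lt_of_le_of_lt (Nat.zero_le _) (hf 0 (by omega))
    · exact lt_of_le_of_lt (Nat.zero_le _) hc
  set Pt : Type := Bool × (Fin r → Fin h) × Fin h with hPt
  have hPtc : 0 < Fintype.card Pt := by
    rw [Fintype.card_pos_iff]
    exact ⟨(true, (fun _ => ⟨0, hh⟩), ⟨0, hh⟩)⟩
  refine ⟨h, Fintype.card Pt * d', hh, Nat.mul_pos hPtc hd', ?_⟩
  intro V _ _ G R U hW
  set d := Fintype.card Pt * d' with hd
  -- the pattern of a column
  have hpat : ∀ i : ℕ, ∃ π : Pt, i < d → ladGood G r h d R U i π := by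
    intro i
    by_cases hi : i < d
    · rcases hPST (ladT G h d R U i) (fun a b => ladT_symm)
        (fun I hI hI2 hI3 => by
          obtain ⟨a, ha, b, hb, hbI, x, hx, y, hy, l, hl⟩ := h2 V G h d R U hW i hi I hI hI2 hI3
          exact ⟨a, ha, b, hb, hbI, x, hx, y, hy, l, hl⟩) with
        ⟨f, hf, hinj, hT⟩ | ⟨c, hc, f, hf, hinj, hT⟩
      · refine ⟨(true, (fun s => ⟨f s, hf s s.2⟩), ⟨0, hh⟩), fun _ => ⟨?_, Or.inl ⟨rfl, ?_⟩⟩⟩
        · intro s t hst
          exact Fin.ext (hinj s s.2 t t.2 (congrArg Fin.val hst))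
        · intro s t hst
          have h3 := hT s (by rw [hst]; exact t.2)
          rw [hst] at h3
          exact h3
      · refine ⟨(false, (fun s => ⟨f s, (hf s s.2).1⟩), ⟨c, hc⟩), fun _ => ⟨?_, Or.inr ⟨rfl, ?_, ?_⟩⟩⟩
        · intro s t hst
          exact Fin.ext (hinj s s.2 t t.2 (congrArg Fin.val hst))
        · intro s h3
          exact (hf s s.2).2 (congrArg Fin.val h3)
        · intro s
          exact hT s s.2
    · exact ⟨(true, (fun _ => ⟨0, hh⟩), ⟨0, hh⟩), fun h3 => absurd h3 hi⟩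
  choose col hcol using hpat
  -- pigeonhole
  obtain ⟨π, -, hπ⟩ := Finset.exists_le_card_fiber_of_mul_le_card_of_maps_to
    (s := Finset.range d) (t := (Finset.univ : Finset Pt)) (f := col) (n := d')
    (fun _ _ => Finset.mem_univ _) ⟨(true, (fun _ => ⟨0, hh⟩), ⟨0, hh⟩), Finset.mem_univ _⟩
    (by rw [Finset.card_univ, Finset.card_range])
  obtain ⟨S, hS, hScard⟩ := Finset.exists_subset_card_eq hπ
  set e := S.orderEmbOfFin hScard with he
  have heS : ∀ j : Fin d', e j < d ∧ col (e j) = π := by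
    intro j
    have h3 := hS (Finset.orderEmbOfFin_mem S hScard j)
    rw [Finset.mem_filter, Finset.mem_range] at h3
    exact h3
  -- the columns
  set i : ℕ → ℕ := fun j => if hj : j < d' then e ⟨j, hj⟩ else d with hi
  have hid : ∀ j, j < d' → i j < d ∧ ladGood G r h d R U (i j) π := by
    intro j hj
    have h3 := heS ⟨j, hj⟩
    have h4 : i j = e ⟨j, hj⟩ := by
      rw [hi]
      exact dif_pos hj
    rw [h4]
    exact ⟨h3.1, h3.2 ▸ hcol _ h3.1⟩
  have himono : ∀ j, j < d' → i j < i (j + 1) := by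
    intro j hj
    by_cases hj1 : j + 1 < d'
    · have h4 : i j = e ⟨j, hj⟩ := by
        rw [hi]
        exact dif_pos hj
      have h5 : i (j + 1) = e ⟨j + 1, hj1⟩ := by
        rw [hi]
        exact dif_pos hj1
      rw [h4, h5]
      apply e.strictMono
      exact Nat.lt_succ_self j
    · have h5 : i (j + 1) = d := by
        rw [hi]
        exact dif_neg hj1
      rw [h5]
      exact (hid j hj).1
  -- the groups
  set b : ℕ → ℕ := fun j => if j = 0 then 0 else i j with hb
  have hb0 : b 0 = 0 := rfl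
  have hbS : ∀ j, b (j + 1) = i (j + 1) := fun j => by
    rw [hb]
    exact if_neg (Nat.succ_ne_zero j)
  have hble : ∀ j, b j ≤ i j := by
    intro j
    rw [hb]
    dsimp only
    split_ifs
    · exact Nat.zero_le _
    · exact le_rfl
  have hbmono : ∀ j < d', b j < b (j + 1) := by
    intro j hj
    rw [hbS]
    exact lt_of_le_of_lt (hble j) (himono j hj)
  have hbd : b d' = d := by
    obtain ⟨m, rfl⟩ : ∃ m, d' = m + 1 := ⟨d' - 1, by omega⟩
    rw [hbS, hi]
    exact dif_neg (lt_irrefl _)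
  have hbm : ∀ j j', j ≤ j' → j' ≤ d' → b j ≤ b j' := by
    intro j j' hjj hj'
    induction j' with
    | zero =>
      have : j = 0 := by omega
      rw [this]
    | succ j' ih =>
      rcases Nat.lt_or_ge j (j' + 1) with h3 | h3
      · exact (ih (by omega) (by omega)).trans (hbmono j' (by omega)).le
      · have : j = j' + 1 := by omega
        rw [this]
  -- the rows
  set f : ℕ → ℕ := fun a => if ha : a < r then (π.2.1 ⟨a, ha⟩ : ℕ) else 0 with hf
  have hfa : ∀ a (ha : a < r), f a = π.2.1 ⟨a, ha⟩ := fun a ha => dif_pos ha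
  have hfh : ∀ a < r, f a < h := fun a ha => by
    rw [hfa a ha]
    exact (π.2.1 ⟨a, ha⟩).2
  have hπinj : Function.Injective π.2.1 := (hid 0 hd').2.1
  have hfinj : ∀ a < r, ∀ a' < r, f a = f a' → a = a' := by
    intro a ha a' ha' haa
    rw [hfa a ha, hfa a' ha'] at haa
    exact congrArg Fin.val (hπinj (Fin.ext haa))
  set R' : ℕ → ℕ → List V :=
    fun a j => ((List.Ico (b j) (b (j + 1))).map (R (f a))).flatten with hR'
  set U' : ℕ → Finset V := fun j => (Finset.Ico (b j) (b (j + 1))).biUnion U with hU'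
  have hrow : ∀ a, row R' d' a = row R d (f a) := by
    intro a
    have h3 := lad_row (R := R) b f d' hb0 hbmono a d' le_rfl
    rw [hbd] at h3
    exact h3
  have hmem' : ∀ a j v, v ∈ R' a j ↔ ∃ k, (b j ≤ k ∧ k < b (j + 1)) ∧ v ∈ R (f a) k := by
    intro a j v
    rw [hR']
    simp only [List.mem_flatten, List.mem_map, List.Ico.mem]
    constructor
    · rintro ⟨l, ⟨k, hk, rfl⟩, hv⟩
      exact ⟨k, hk, hv⟩
    · rintro ⟨k, hk, hv⟩
      exact ⟨_, ⟨k, hk, rfl⟩, hv⟩
  have hlast : ∀ j < d', b (j + 1) ≤ d := fun j hj => by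
    rw [← hbd]
    exact hbm _ _ hj le_rfl
  have hQ : ∀ s j, ∃ l : List V, s + 1 < r → j < d' →
      (∃ x ∈ R' s j, ∃ y ∈ R' (s + 1) j, PL G x y (x :: l ++ [y])) ∧ (∀ v ∈ l, v ∈ U' j) ∧
        ∀ v ∈ l, ∀ a < r, v ∉ row R' d' a := by
    intro s j
    by_cases hs : s + 1 < r
    · by_cases hj : j < d'
      · obtain ⟨x, hx, y, hy, l, hl, g1, g2⟩ := lad_link hW (hid j hj).1 (hid j hj).2
          ⟨s, by omega⟩ ⟨s + 1, hs⟩ rfl
        refine ⟨l, fun _ _ => ⟨⟨x, ?_, y, ?_, hl⟩, ?_, ?_⟩⟩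
        · rw [hmem', hfa s (by omega)]
          exact ⟨i j, ⟨hble j, by rw [hbS]; exact himono j hj⟩, hx⟩
        · rw [hmem', hfa (s + 1) hs]
          exact ⟨i j, ⟨hble j, by rw [hbS]; exact himono j hj⟩, hy⟩
        · intro v hv
          rw [hU', mem_biUnion]
          exact ⟨i j, Finset.mem_Ico.2 ⟨hble j, by rw [hbS]; exact himono j hj⟩, g1 v hv⟩
        · intro v hv a ha
          rw [hrow, hfa a ha]
          exact g2 v hv _
      · exact ⟨[], fun _ h3 => absurd h3 hj⟩
    · exact ⟨[], fun h3 => absurd h3 hs⟩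
  choose Q' hQ' using hQ
  refine ⟨R', U', Q', ⟨⟨?_, ?_, ?_, ?_, ?_, ?_, ?_⟩, ?_, ?_, ?_⟩, ?_⟩
  · intro a ha j hj hcon
    have h3 := hW.ne (f a) (hfh a ha) (b j) (lt_of_lt_of_le (hbmono j hj) (hlast j hj))
    obtain ⟨v, hv⟩ := List.exists_mem_of_ne_nil _ h3
    have h4 : v ∈ R' a j := (hmem' a j v).2 ⟨b j, ⟨le_rfl, hbmono j hj⟩, hv⟩
    rw [hcon] at h4
    exact absurd h4 List.not_mem_nil
  · intro a ha
    rw [hrow]
    exact hW.nodup _ (hfh a ha)
  · intro a ha
    rw [hrow]
    exact hW.chain _ (hfh a ha)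
  · intro a ha a' ha' hne
    rw [hrow, hrow]
    exact hW.dj _ (hfh a ha) _ (hfh a' ha') (fun h3 => hne (hfinj a ha a' ha' h3))
  · intro a ha j hj v hv
    obtain ⟨k, hk, hv⟩ := (hmem' a j v).1 hv
    rw [hU', mem_biUnion]
    exact ⟨k, Finset.mem_Ico.2 hk,
      hW.mem _ (hfh a ha) k (lt_of_lt_of_le hk.2 (hlast j hj)) v hv⟩
  · intro j hj
    exact lad_conn hW hh _ _ (hbmono j hj) (hlast j hj)
  · intro j hj j' hj' hne
    rw [hU', Finset.disjoint_left]
    intro v hv hv'
    rw [mem_biUnion] at hv hv'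
    obtain ⟨k, hk, hv⟩ := hv
    obtain ⟨k', hk', hv'⟩ := hv'
    rw [Finset.mem_Ico] at hk hk'
    have h3 : k ≠ k' := by
      intro h4
      rcases Nat.lt_or_ge j j' with h5 | h5
      · have := hbm (j + 1) j' h5 hj'.le
        omega
      · have := hbm (j' + 1) j (by omega) hj.le
        omega
    have h4 := hW.udj k (lt_of_lt_of_le hk.2 (hlast j hj)) k'
      (lt_of_lt_of_le hk'.2 (hlast j' hj')) h3
    exact Finset.disjoint_left.1 h4 hv hv'
  · intro s hs j hj
    exact (hQ' s j hs hj).1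
  · intro s hs j hj
    exact (hQ' s j hs hj).2.1
  · intro s hs j hj
    exact (hQ' s j hs hj).2.2
  · intro F N g hC X Z hX hZ hXZ hI
    obtain ⟨I, hIg, hI⟩ := hI
    refine hC X Z hX hZ hXZ ⟨I.image f, ?_, ?_⟩
    · rw [Finset.card_image_of_injOn, hIg]
      intro a ha a' ha' haa
      exact hfinj a (hI a ha).1 a' (hI a' ha').1 haa
    · intro a' ha'
      obtain ⟨a, ha, rfl⟩ := Finset.mem_image.1 ha'
      have h3 := hI a ha
      rw [hrow] at h3
      exact ⟨hfh a h3.1, h3.2⟩

end Pool.Agent.Helper71.BM
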